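import Pool.Agent.H84.MN.Final

/-!
# The fundamental-group Morse-Novikov number is additive

`G i` are groups (of 2-knots `K i`) with homomorphisms `χ i` to `ℤ` and elements `t i` (meridians)
with `χ i (t i) = 1`; the amalgam of the `G i`, in which all `t i` are identified, is the group of
the connected sum. The number `piMN` of the amalgam is the sum of the numbers `piMN (χ i)`.
-/

set_option autoImplicit false

universe u v

namespace Pool.Agent.Results.MP_2f05bc_gt.PiOneAdditivity

open Monoid Pool.Agent.H84.MN

theorem result {ι : Type u} [Fintype ι] {G : ι → Type v} [∀ i, Group (G i)]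
    (χ : ∀ i, G i →* Multiplicative ℤ) (t : ∀ i, G i)
    (ht : ∀ i, χ i (t i) = Multiplicative.ofAdd 1)
    (X : PushoutI (fun i => zpowersHom (G i) (t i)) →* Multiplicative ℤ)
    (hX : ∀ i g, X (PushoutI.of i g) = χ i g)
    (hX' : ∀ a, X (PushoutI.base (fun i => zpowersHom (G i) (t i)) a) = a) :
    piMN X = ∑ i, piMN (χ i) :=
  piMN_amalgam χ t ht X hX hX'

end Pool.Agent.Results.MP_2f05bc_gt.PiOneAdditivity
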